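import Pool.Agent.H48.FR.Targets

/-!
Module DS of the board fir_modules (MP_6a7a6f_gt): the distances between the points which occur.
-/

namespace Pool.Agent.H89.FR.DS

noncomputable section

open Pool.Agent.H48.FR

variable {𝕜 : Type} [NormedDivisionRing 𝕜] [StarRing 𝕜] [NormedAlgebra ℝ 𝕜] [PF 𝕜] {n : ℕ}

lemma nrm_sq_split (x : Fin (n + 1) → 𝕜) : nrm x ^ 2 = ‖x 0‖ ^ 2 + nrm (tl x) ^ 2 := by
  rw [nrm_sq, nrm_sq, Fin.sum_univ_succ]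
  rfl

lemma hp_split (x y : Fin (n + 1) → 𝕜) : hp x y = x 0 * star (y 0) + hp (tl x) (tl y) := by
  unfold hp
  rw [Fin.sum_univ_succ]
  rfl

lemma hp_single (x : Fin (n + 1) → 𝕜) : hp (Pi.single 0 1) x = star (x 0) := by
  unfold hp
  rw [Finset.sum_eq_single 0]
  · rw [Pi.single_eq_same, one_mul]
  · intro i _ hi
    rw [Pi.single_eq_of_ne hi, zero_mul]
  · intro h
    exact absurd (Finset.mem_univ _) h

lemma nrm_single : nrm (Pi.single 0 1 : Fin (n + 1) → 𝕜) = 1 := by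
  have h1 : nrm (Pi.single 0 1 : Fin (n + 1) → 𝕜) ^ 2 = 1 := by
    rw [nrm_sq, Finset.sum_eq_single 0]
    · rw [Pi.single_eq_same, norm_one, one_pow]
    · intro i _ hi
      rw [Pi.single_eq_of_ne hi, norm_zero]
      norm_num
    · intro h
      exact absurd (Finset.mem_univ _) h
  have h2 := nrm_nonneg (Pi.single 0 1 : Fin (n + 1) → 𝕜)
  nlinarith

lemma vv_eq (x : Fin (n + 1) → 𝕜) : vv x = (rs (nrm (tl x))⁻¹ : 𝕜) • tl x := rfl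

lemma tl_yv (ρ : ℝ) (x : Fin (n + 1) → 𝕜) (q : 𝕜) :
    tl (yv ρ x q) = ((rs (Real.sin ρ) : 𝕜) * q) • vv x := by
  funext i
  change rs (Real.sin ρ) * (q * vv x i) = (rs (Real.sin ρ) * q) * vv x i
  rw [mul_assoc]

lemma yv_zero (ρ : ℝ) (x : Fin (n + 1) → 𝕜) (q : 𝕜) : yv ρ x q 0 = rs (Real.cos ρ) := rfl

lemma rs_mul (a b : ℝ) : (rs a : 𝕜) * rs b = rs (a * b) := by
  rw [rs, rs, rs, map_mul]

lemma nrm_vv {x : Fin (n + 1) → 𝕜} (hx : tl x ≠ 0) : nrm (vv x) = 1 := by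
  have h0 : nrm (tl x) ≠ 0 := fun h => hx ((nrm_eq_zero_iff _).1 h)
  rw [vv_eq, nrm_smul, norm_rs, abs_of_nonneg (inv_nonneg.2 (nrm_nonneg _)), inv_mul_cancel₀ h0]

lemma nrm_yv {x : Fin (n + 1) → 𝕜} (hx : tl x ≠ 0) (ρ : ℝ) {q : 𝕜} (hq : ‖q‖ = 1) :
    nrm (yv ρ x q) = 1 := by
  have h1 : nrm (yv ρ x q) ^ 2 = 1 := by
    rw [nrm_sq_split, tl_yv, yv_zero, nrm_smul, nrm_vv hx, norm_mul, norm_rs, norm_rs, hq, mul_one,
      mul_one, sq_abs, sq_abs, Real.cos_sq_add_sin_sq]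
  have h2 := nrm_nonneg (yv ρ x q)
  nlinarith

lemma hp_tl_vv {x : Fin (n + 1) → 𝕜} (hx : tl x ≠ 0) :
    hp (tl x) (vv x) = rs (nrm (tl x)) := by
  have h0 : nrm (tl x) ≠ 0 := fun h => hx ((nrm_eq_zero_iff _).1 h)
  rw [vv_eq, hp_smul_right, star_rs, hp_self]
  change (rs (nrm (tl x) ^ 2) : 𝕜) * rs (nrm (tl x))⁻¹ = _
  rw [rs_mul, sq, mul_assoc, mul_inv_cancel₀ h0, mul_one]

lemma norm_hp_yv_sq {x : Fin (n + 1) → 𝕜} (hx : tl x ≠ 0) (ρ : ℝ) {q q' : 𝕜} (hq : ‖q‖ = 1)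
    (hq' : ‖q'‖ = 1) :
    ‖hp (yv ρ x q) (yv ρ x q')‖ ^ 2 = Real.cos ρ ^ 4 + Real.sin ρ ^ 4 +
      2 * Real.cos ρ ^ 2 * Real.sin ρ ^ 2 * re (q * star q') := by
  have hv : hp (vv x) (vv x) = 1 := by
    rw [hp_self, nrm_vv hx, one_pow, map_one]
  have e1 : hp (yv ρ x q) (yv ρ x q') =
      rs (Real.cos ρ ^ 2) + rs (Real.sin ρ ^ 2) * (q * star q') := by
    rw [hp_split, tl_yv, tl_yv, yv_zero, yv_zero, hp_smul_left, hp_smul_right, hv, one_mul,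
      star_mul, star_rs, star_rs, rs_mul, sq, sq, ← rs_mul (Real.sin ρ)]
    congr 1
    rw [← rs_mul_comm, mul_assoc, mul_assoc, ← mul_assoc q, ← rs_mul_comm, mul_assoc]
  rw [e1, Pool.Agent.H48.FR.norm_add_sq, norm_rs, norm_mul, norm_rs, norm_mul, norm_star', hq, hq', mul_one, mul_one,
    sq_abs, sq_abs, star_mul, star_rs, re_rs_mul, re_mul_rs, star_mul, star_star]
  have e2 : re (q' * star q) = re (q * star q') := by
    rw [← re_star (q' * star q), star_mul, star_star]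
  rw [e2]
  ring

lemma norm_hp_x_yv_sq {x : Fin (n + 1) → 𝕜} (hx : tl x ≠ 0) (ρ : ℝ) {q : 𝕜} (hq : ‖q‖ = 1) :
    ‖hp x (yv ρ x q)‖ ^ 2 = (‖x 0‖ * Real.cos ρ) ^ 2 + (nrm (tl x) * Real.sin ρ) ^ 2 +
      2 * Real.cos ρ * Real.sin ρ * nrm (tl x) * re (q * x 0) := by
  have e1 : hp x (yv ρ x q) =
      x 0 * rs (Real.cos ρ) + rs (nrm (tl x) * Real.sin ρ) * star q := by
    rw [hp_split, tl_yv, yv_zero, hp_smul_right, hp_tl_vv hx, star_mul, star_rs, star_rs,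
      ← rs_mul_comm _ (star q), ← mul_assoc, rs_mul]
  rw [e1, Pool.Agent.H48.FR.norm_add_sq, norm_mul, norm_mul, norm_rs, norm_rs, norm_star', hq, mul_one, mul_pow,
    sq_abs, sq_abs, star_mul, star_star, star_rs, mul_assoc, re_mul_comm, mul_assoc, re_rs_mul,
    ← rs_mul_comm, mul_assoc (rs _) q, re_rs_mul]
  ring

lemma cos_dist {x y : Fin (n + 1) → 𝕜} (hx : nrm x = 1) (hy : nrm y = 1) (hx0 : x ≠ 0)
    (hy0 : y ≠ 0) : Real.cos (dist (PP.mk x hx0) (PP.mk y hy0)) = ‖hp x y‖ := by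
  rw [dist_mk, pd_unit hx hy, Real.cos_arccos]
  · linarith [norm_nonneg (hp x y)]
  · exact norm_hp_le_one hx hy

lemma yv_ne {x : Fin (n + 1) → 𝕜} (hx : tl x ≠ 0) (ρ : ℝ) {q : 𝕜} (hq : ‖q‖ = 1) :
    yv ρ x q ≠ 0 := by
  intro h
  have h1 := nrm_yv hx ρ hq
  rw [h, (nrm_eq_zero_iff _).2 rfl] at h1
  exact zero_ne_one h1

theorem ds : T_DS := by
  intro 𝕜 _ _ _ _ n ρ x hρ0 hρ1
  have hc0 : 0 ≤ Real.cos ρ :=
    Real.cos_nonneg_of_neg_pi_div_two_le_of_le (by linarith [Real.pi_pos]) hρ1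
  have hx1 : nrm x.1 = 1 := x.2
  have hs : nrm (Pi.single 0 1 : Fin (n + 1) → 𝕜) = 1 := nrm_single
  have hs0 : (Pi.single 0 1 : Fin (n + 1) → 𝕜) ≠ 0 := by
    intro h
    have := congrFun h 0
    rw [Pi.single_eq_same] at this
    exact one_ne_zero this
  have hsq : ‖x.1 0‖ ^ 2 + nrm (tl x.1) ^ 2 = 1 := by
    rw [← nrm_sq_split, hx1, one_pow]
  have hd : dist (bp 𝕜 n) (prS x) = Real.arccos ‖x.1 0‖ := by
    change dist (PP.mk (Pi.single 0 1 : Fin (n + 1) → 𝕜) hs0) (PP.mk x.1 (sph_ne x)) = _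
    rw [dist_mk, pd_unit hs hx1, hp_single, norm_star']
  have hx0 : ‖x.1 0‖ ≤ 1 := by nlinarith [norm_nonneg (x.1 0), sq_nonneg (nrm (tl x.1))]
  refine ⟨⟨?_, ?_, ?_⟩, ?_⟩
  · rw [hd, Real.cos_arccos (by linarith [norm_nonneg (x.1 0)]) hx0]
  · rw [hd, Real.sin_arccos]
    have : 1 - ‖x.1 0‖ ^ 2 = nrm (tl x.1) ^ 2 := by linarith
    rw [this, Real.sqrt_sq (nrm_nonneg _)]
  · intro hne h
    apply hne
    have h1 : nrm (tl x.1) = 0 := (nrm_eq_zero_iff _).2 h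
    have h2 : ‖x.1 0‖ = 1 := by
      rw [h1] at hsq
      nlinarith [norm_nonneg (x.1 0)]
    have h3 : dist (bp 𝕜 n) (prS x) = 0 := by rw [hd, h2, Real.arccos_one]
    exact (dist_eq_zero.1 h3).symm
  · intro ht q q' hq hq'
    refine ⟨yv_ne ht ρ hq, yv_ne ht ρ hq', ?_, ?_, ?_⟩
    · change dist (PP.mk (Pi.single 0 1 : Fin (n + 1) → 𝕜) hs0) (PP.mk _ _) = _
      rw [dist_mk, pd_unit hs (nrm_yv ht ρ hq), hp_single, norm_star', yv_zero, norm_rs,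
        abs_of_nonneg hc0, Real.arccos_cos hρ0 (by linarith [Real.pi_pos])]
    · rw [Real.cos_two_mul (dist _ _), cos_dist (nrm_yv ht ρ hq) (nrm_yv ht ρ hq'),
        norm_hp_yv_sq ht ρ hq hq', Real.cos_two_mul ρ, Real.sin_two_mul]
      have h1 := Real.sin_sq_add_cos_sq ρ
      have h2 : Real.sin ρ ^ 2 = 1 - Real.cos ρ ^ 2 := by linarith
      have h3 : Real.sin ρ ^ 4 = (1 - Real.cos ρ ^ 2) ^ 2 := by
        rw [← h2]; ring
      rw [h3, mul_pow, mul_pow, h2]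
      ring
    · have h1 : dist (prS x) (PP.mk _ (yv_ne ht ρ hq)) =
          dist (PP.mk x.1 (sph_ne x)) (PP.mk _ (yv_ne ht ρ hq)) := rfl
      rw [h1, cos_dist hx1 (nrm_yv ht ρ hq), norm_hp_x_yv_sq ht ρ hq]

end

end Pool.Agent.H89.FR.DS
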